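import Mathlib

set_option autoImplicit false

namespace Pool.Agent.Results.MP_e74e46_co.BalancedRefutation

/-- The bundle `A_i` of agent `i` in the allocation `A` (good `g` goes to agent `A g`). -/
def bundle {n m : ℕ} (A : Fin m → Fin n) (i : Fin n) : Finset (Fin m) :=
  Finset.univ.filter (fun g => A g = i)

/-- The additive value of a set of goods. -/
def value {m : ℕ} (f : Fin m → ℝ) (S : Finset (Fin m)) : ℝ := ∑ g ∈ S, f g

/-- EF1 with respect to the profile `w`: for all `i, j`, either `A_j` is empty or removing some good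
from `A_j` removes the envy of `i` towards `j`. -/
def IsEF1 {n m : ℕ} (w : Fin n → Fin m → ℝ) (A : Fin m → Fin n) : Prop :=
  ∀ i j : Fin n, bundle A j = ∅ ∨
    ∃ g ∈ bundle A j, value (w i) (bundle A j \ {g}) ≤ value (w i) (bundle A i)

/-- Envy-freeness up to `k` goods with respect to the profile `w`. -/
def IsEFUpTo {n m : ℕ} (k : ℕ) (w : Fin n → Fin m → ℝ) (A : Fin m → Fin n) : Prop :=
  ∀ i j : Fin n, ∃ T ⊆ bundle A j, T.card ≤ k ∧
    value (w i) (bundle A j \ T) ≤ value (w i) (bundle A i)

/-- Pareto optimality (among all allocations) with respect to the profile `u`. -/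
def IsPO {n m : ℕ} (u : Fin n → Fin m → ℝ) (A : Fin m → Fin n) : Prop :=
  ¬ ∃ A' : Fin m → Fin n,
    (∀ i, value (u i) (bundle A i) ≤ value (u i) (bundle A' i)) ∧
      ∃ i, value (u i) (bundle A i) < value (u i) (bundle A' i)

/-- Balanced: every bundle has `⌊m/n⌋` or `⌈m/n⌉` goods. -/
def IsBalanced {n m : ℕ} (A : Fin m → Fin n) : Prop :=
  ∀ i : Fin n, (bundle A i).card = m / n ∨ (bundle A i).card = (m + n - 1) / n

lemma mem_bundle {n m : ℕ} {A : Fin m → Fin n} {i : Fin n} {g : Fin m} :
    g ∈ bundle A i ↔ A g = i := by simp [bundle]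

lemma isEFUpTo_of_isEF1 {n m k : ℕ} (hk : 1 ≤ k) {w : Fin n → Fin m → ℝ} (hw : ∀ i g, 0 < w i g)
    {A : Fin m → Fin n} (h : IsEF1 w A) : IsEFUpTo k w A := by
  intro i j
  rcases h i j with h0 | ⟨g, hg, hle⟩
  · refine ⟨∅, Finset.empty_subset _, by simp, ?_⟩
    rw [h0]
    simp only [value, Finset.sdiff_empty, Finset.sum_empty]
    exact Finset.sum_nonneg (fun g _ => (hw i g).le)
  · exact ⟨{g}, by simpa using hg, by simpa using hk, hle⟩

lemma sum_card_bundle {n m : ℕ} (A : Fin m → Fin n) : ∑ i, (bundle A i).card = m := by
  have h := Finset.card_eq_sum_card_fiberwise (f := A) (s := (Finset.univ : Finset (Fin m)))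
    (t := (Finset.univ : Finset (Fin n))) (fun g _ => Finset.mem_univ (A g))
  rw [Finset.card_univ, Fintype.card_fin] at h
  exact h.symm

/-- For `m = n s` goods, balancedness (or EF1 for a constant valuation) gives `s` goods to everyone. -/
lemma card_of_balanced {n s : ℕ} {A : Fin (n * s) → Fin n} (h : IsBalanced A) (i : Fin n) :
    (bundle A i).card = s := by
  have hn : 0 < n := i.pos
  rcases h i with h | h
  · rw [h, Nat.mul_div_cancel_left _ hn]
  · rw [h, show n * s + n - 1 = (n - 1) + n * s by omega, Nat.add_mul_div_left _ _ hn,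
      Nat.div_eq_of_lt (by omega), Nat.zero_add]

lemma card_of_ef1 {n s : ℕ} {A : Fin (n * s) → Fin n} (h : IsEF1 (fun _ _ => (1 : ℝ)) A)
    (i : Fin n) : (bundle A i).card = s := by
  have hv : ∀ S : Finset (Fin (n * s)), value (fun _ => (1 : ℝ)) S = (S.card : ℝ) := by
    intro S
    simp [value]
  have hle : ∀ i j : Fin n, (bundle A j).card ≤ (bundle A i).card + 1 := by
    intro i j
    rcases h i j with h0 | ⟨g, hg, hle⟩
    · rw [h0]
      simp
    · rw [hv, hv] at hle
      have h1 : (bundle A j \ {g}).card ≤ (bundle A i).card := by exact_mod_cast hle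
      have h2 : (bundle A j \ {g}).card = (bundle A j).card - 1 := by
        rw [Finset.card_sdiff_of_subset (by simpa using hg)]
        simp
      omega
  have hsum := sum_card_bundle A
  rcases lt_trichotomy (bundle A i).card s with hlt | heq | hgt
  · exfalso
    have : ∑ j, (bundle A j).card < ∑ _j : Fin n, s :=
      Finset.sum_lt_sum (fun j _ => by have := hle i j; omega) ⟨i, Finset.mem_univ _, hlt⟩
    simp at this
    omega
  · exact heq
  · exfalso
    have : ∑ _j : Fin n, s < ∑ j, (bundle A j).card :=
      Finset.sum_lt_sum (fun j _ => by have := hle j i; omega) ⟨i, Finset.mem_univ _, hgt⟩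
    simp at this
    omega

/-- Number of goods. -/
abbrev size (n k : ℕ) : ℕ := n * (2 * k + 2)

/-- Big goods: the first `(n - 1) (2 k + 1)`. -/
def big (n k : ℕ) : Finset (Fin (size n k)) :=
  Finset.univ.filter (fun g => g.val < (n - 1) * (2 * k + 1))

/-- Subjective utilities: small goods are worth `1` to everyone, a big good is worth `2` to agent `0`
and `3` to every other agent. -/
noncomputable def util (n k : ℕ) (i : Fin n) (g : Fin (size n k)) : ℝ :=
  if g.val < (n - 1) * (2 * k + 1) then (if i.val = 0 then 2 else 3) else 1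

lemma util_pos (n k : ℕ) (i : Fin n) (g : Fin (size n k)) : 0 < util n k i g := by
  unfold util
  split_ifs <;> norm_num

lemma mem_big {n k : ℕ} {g : Fin (size n k)} : g ∈ big n k ↔ g.val < (n - 1) * (2 * k + 1) := by
  simp [big]

lemma big_le (n k : ℕ) : (n - 1) * (2 * k + 1) ≤ size n k := by
  unfold size
  exact Nat.mul_le_mul (by omega) (by omega)

lemma card_big (n k : ℕ) : (big n k).card = (n - 1) * (2 * k + 1) := by
  unfold big
  rw [Fin.card_filter_val_lt]
  exact min_eq_right (big_le n k)

/-- The trade: if agent `0` holds a big good and agent `j` holds two small goods, the allocation is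
not Pareto optimal. -/
lemma trade {n k : ℕ} {A : Fin (size n k) → Fin n} (hPO : IsPO (util n k) A) {a0 j : Fin n}
    (ha0 : a0.val = 0) (hj : a0 ≠ j) {g x y : Fin (size n k)} (hg : A g = a0) (hgb : g ∈ big n k)
    (hx : A x = j) (hxb : x ∉ big n k) (hy : A y = j) (hyb : y ∉ big n k) (hxy : x ≠ y) : False := by
  rw [mem_big] at hgb hxb hyb
  have hgx : g ≠ x := by rintro rfl; exact hxb hgb
  have hgy : g ≠ y := by rintro rfl; exact hyb hgb
  let A' : Fin (size n k) → Fin n :=
    fun z => if z = g then j else if z = x then a0 else if z = y then a0 else A z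
  have hA'g : A' g = j := by simp [A']
  have hA'x : A' x = a0 := by simp [A', hgx.symm]
  have hA'y : A' y = a0 := by simp [A', hgy.symm, hxy.symm]
  have hA'o : ∀ z, z ≠ g → z ≠ x → z ≠ y → A' z = A z := by
    intro z h1 h2 h3
    simp [A', h1, h2, h3]
  have hval : ∀ (B : Fin (size n k) → Fin n) (i : Fin n),
      value (util n k i) (bundle B i) = ∑ z, if B z = i then util n k i z else 0 := by
    intro B i
    unfold value bundle
    rw [Finset.sum_filter]
  have key : ∀ i : Fin n, value (util n k i) (bundle A' i) - value (util n k i) (bundle A i) =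
      ((if j = i then util n k i g else 0) - (if a0 = i then util n k i g else 0)) +
      (((if a0 = i then util n k i x else 0) - (if j = i then util n k i x else 0)) +
      ((if a0 = i then util n k i y else 0) - (if j = i then util n k i y else 0))) := by
    intro i
    rw [hval, hval, ← Finset.sum_sub_distrib]
    rw [← Finset.sum_subset (Finset.subset_univ ({g, x, y} : Finset (Fin (size n k))))]
    · rw [Finset.sum_insert (by simp [hgx, hgy]), Finset.sum_insert (by simp [hxy]),
        Finset.sum_singleton, hA'g, hA'x, hA'y, hg, hx, hy]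
    · intro z _ hz
      simp only [Finset.mem_insert, Finset.mem_singleton, not_or] at hz
      rw [hA'o z hz.1 hz.2.1 hz.2.2]
      ring
  have hug0 : util n k a0 g = 2 := by simp [util, hgb, ha0]
  have hux0 : util n k a0 x = 1 := by simp [util, hxb]
  have huy0 : util n k a0 y = 1 := by simp [util, hyb]
  have hj0 : j.val ≠ 0 := by
    intro h
    exact hj (Fin.ext (ha0.trans h.symm))
  have hugj : util n k j g = 3 := by simp [util, hgb, hj0]
  have huxj : util n k j x = 1 := by simp [util, hxb]
  have huyj : util n k j y = 1 := by simp [util, hyb]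
  have hd0 : value (util n k a0) (bundle A' a0) - value (util n k a0) (bundle A a0) = 0 := by
    rw [key a0, if_neg hj.symm, if_pos rfl, if_pos rfl, if_neg hj.symm, if_pos rfl, if_neg hj.symm,
      hug0, hux0, huy0]
    norm_num
  have hdj : value (util n k j) (bundle A' j) - value (util n k j) (bundle A j) = 1 := by
    rw [key j, if_pos rfl, if_neg hj, if_neg hj, if_pos rfl, if_neg hj, if_pos rfl,
      hugj, huxj, huyj]
    norm_num
  apply hPO
  refine ⟨A', ?_, j, by linarith⟩
  intro i
  by_cases hi0 : a0 = i
  · subst hi0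
    linarith
  · by_cases hij : j = i
    · subst hij
      linarith
    · have := key i
      simp only [if_neg hi0, if_neg hij] at this
      linarith

/-- Main step: with `2 k + 2` goods each and Pareto optimality, agent `0` gets no big good. -/
lemma no_big {n k : ℕ} (hn : 2 ≤ n) {A : Fin (size n k) → Fin n}
    (hcard : ∀ i, (bundle A i).card = 2 * k + 2) (hPO : IsPO (util n k) A) (g : Fin (size n k))
    (hg : A g = ⟨0, by omega⟩) : g ∉ big n k := by
  intro hgb
  set a0 : Fin n := ⟨0, by omega⟩ with ha0
  -- every other agent has at most one small good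
  have hsmall : ∀ j : Fin n, a0 ≠ j → (bundle A j \ big n k).card ≤ 1 := by
    intro j hj
    rw [Finset.card_le_one]
    intro x hx y hy
    by_contra hxy
    rw [Finset.mem_sdiff, mem_bundle] at hx hy
    exact trade hPO (by simp [ha0]) hj hg hgb hx.1 hx.2 hy.1 hy.2 hxy
  -- count the small goods
  have htot : ∑ i, (bundle A i \ big n k).card = n + 2 * k + 1 := by
    have h1 : ∑ i, (bundle A i \ big n k).card =
        ((Finset.univ : Finset (Fin (size n k))) \ big n k).card := by
      rw [Finset.card_eq_sum_card_fiberwise (f := A)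
        (t := (Finset.univ : Finset (Fin n))) (fun g _ => Finset.mem_univ (A g))]
      refine Finset.sum_congr rfl (fun i _ => ?_)
      congr 1
      ext z
      simp only [bundle, Finset.mem_sdiff, Finset.mem_filter, Finset.mem_univ, true_and]
      tauto
    rw [h1, Finset.card_sdiff_of_subset (Finset.subset_univ _), card_big, Finset.card_univ,
      Fintype.card_fin]
    obtain ⟨n', rfl⟩ : ∃ n', n = n' + 1 := ⟨n - 1, by omega⟩
    unfold size
    rw [Nat.add_sub_cancel]
    have : (n' + 1) * (2 * k + 2) = n' * (2 * k + 1) + (n' + 1 + 2 * k + 1) := by ring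
    omega
  have h0 : 2 * k + 2 ≤ (bundle A a0 \ big n k).card := by
    rw [← Finset.add_sum_erase _ _ (Finset.mem_univ a0)] at htot
    have h2 : ∑ i ∈ Finset.univ.erase a0, (bundle A i \ big n k).card ≤
        ∑ _i ∈ (Finset.univ.erase a0 : Finset (Fin n)), 1 :=
      Finset.sum_le_sum (fun i hi => hsmall i (Finset.mem_erase.mp hi).1.symm)
    simp only [Finset.sum_const, smul_eq_mul, mul_one,
      Finset.card_erase_of_mem (Finset.mem_univ a0), Finset.card_univ, Fintype.card_fin] at h2
    omega
  have hlt : (bundle A a0 \ big n k).card < (bundle A a0).card := by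
    apply Finset.card_lt_card
    rw [Finset.ssubset_iff_of_subset Finset.sdiff_subset]
    exact ⟨g, mem_bundle.mpr hg, fun h => (Finset.mem_sdiff.mp h).2 hgb⟩
  rw [hcard a0] at hlt
  omega

/-- **Negative answer to Q2 and Q1**, for every number `n ≥ 2` of agents, and even with EF1 with
respect to the subjective utilities relaxed to envy-freeness up to `k` goods, for any fixed `k ≥ 1`:
there are strictly positive subjective utilities on `n (2k + 2)` goods such that no Pareto optimal
allocation which is balanced, or which is EF1 with respect to the constant reference valuation `1`,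
is EF1, or merely envy-free up to `k` goods, with respect to the subjective utilities. -/
theorem result (n k : ℕ) (hn : 2 ≤ n) (hk : 1 ≤ k) :
    ∃ u : Fin n → Fin (n * (2 * k + 2)) → ℝ, (∀ i g, 0 < u i g) ∧
      ∀ A : Fin (n * (2 * k + 2)) → Fin n,
        (IsBalanced A ∨ IsEF1 (fun _ _ => (1 : ℝ)) A) → IsPO u A →
          ¬ IsEF1 u A ∧ ¬ IsEFUpTo k u A := by
  refine ⟨util n k, util_pos n k, ?_⟩
  intro A hA hPO
  have hcard : ∀ i, (bundle A i).card = 2 * k + 2 := by
    rcases hA with hA | hA
    · exact card_of_balanced hA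
    · exact card_of_ef1 hA
  have main : ¬ IsEFUpTo k (util n k) A := by
    intro hEF
    set a0 : Fin n := ⟨0, by omega⟩ with ha0
    have hmaps : ∀ g ∈ big n k, A g ∈ (Finset.univ.erase a0 : Finset (Fin n)) := by
      intro g hg
      refine Finset.mem_erase.mpr ⟨?_, Finset.mem_univ _⟩
      intro h
      exact no_big hn hcard hPO g h hg
    have hpig : (Finset.univ.erase a0 : Finset (Fin n)).card * (2 * k) < (big n k).card := by
      rw [card_big, Finset.card_erase_of_mem (Finset.mem_univ _), Finset.card_univ,
        Fintype.card_fin]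
      obtain ⟨n', rfl⟩ : ∃ n', n = n' + 2 := ⟨n - 2, by omega⟩
      have : (n' + 2 - 1) * (2 * k + 1) = (n' + 2 - 1) * (2 * k) + (n' + 2 - 1) := by ring
      omega
    obtain ⟨j, hj, hjc'⟩ := Finset.exists_lt_card_fiber_of_mul_lt_card_of_maps_to hmaps hpig
    have hjc : 2 * k < (bundle A j ∩ big n k).card := by
      convert hjc' using 2
      ext z
      simp only [bundle, Finset.mem_inter, Finset.mem_filter, Finset.mem_univ, true_and]
      tauto
    -- values for agent 0
    have hv : ∀ S : Finset (Fin (size n k)),
        value (util n k a0) S = (S.card : ℝ) + ((S ∩ big n k).card : ℝ) := by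
      intro S
      have h1 : ∀ g ∈ S, util n k a0 g = 1 + (if g ∈ big n k then 1 else 0) := by
        intro g _
        unfold util
        by_cases hg : g ∈ big n k
        · rw [if_pos (mem_big.mp hg), if_pos hg, if_pos (by simp [ha0])]
          norm_num
        · rw [if_neg (fun h => hg (mem_big.mpr h)), if_neg hg]
          norm_num
      unfold value
      rw [Finset.sum_congr rfl h1, Finset.sum_add_distrib, ← Finset.sum_filter,
        Finset.filter_mem_eq_inter]
      simp
    obtain ⟨T, hTs, hTk, hle⟩ := hEF a0 j
    rw [hv, hv, hcard a0] at hle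
    have hb0 : bundle A a0 ∩ big n k = ∅ := by
      rw [Finset.eq_empty_iff_forall_notMem]
      intro g hg
      rw [Finset.mem_inter, mem_bundle] at hg
      exact no_big hn hcard hPO g hg.1 hg.2
    rw [hb0, Finset.card_empty] at hle
    have hle' : (bundle A j \ T).card + ((bundle A j \ T) ∩ big n k).card ≤ 2 * k + 2 := by
      exact_mod_cast (show (((bundle A j \ T).card + ((bundle A j \ T) ∩ big n k).card : ℕ) : ℝ) ≤
        ((2 * k + 2 : ℕ) : ℝ) by push_cast at hle ⊢; linarith)
    have h1 := Finset.card_sdiff_add_card_eq_card hTs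
    rw [hcard j] at h1
    have h2 : (bundle A j ∩ big n k).card ≤ ((bundle A j \ T) ∩ big n k).card + T.card := by
      calc _ ≤ (((bundle A j \ T) ∩ big n k) ∪ T).card := by
            apply Finset.card_le_card
            intro z hz
            rw [Finset.mem_inter] at hz
            rw [Finset.mem_union, Finset.mem_inter, Finset.mem_sdiff]
            by_cases hzT : z ∈ T
            · exact Or.inr hzT
            · exact Or.inl ⟨⟨hz.1, hzT⟩, hz.2⟩
        _ ≤ _ := Finset.card_union_le _ _
    omega
  exact ⟨fun h => main (isEFUpTo_of_isEF1 hk (util_pos n k) h), main⟩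

end Pool.Agent.Results.MP_e74e46_co.BalancedRefutation
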